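import Pool.Agent.Helper35.HS3.GoalsB

/-!
# MP_66e6f4_an: packet HS3-EXBD (blow-down of solutions of linear growth)
-/

namespace Pool.Agent.Helper77.HS3.EXBD

open MeasureTheory Set Filter Topology Metric
open Pool.Agent.Helper35.HS3

lemma lap_coord (x : E) : lap (fun y : E => y 0) x = 0 := by
  unfold lap
  refine Finset.sum_eq_zero fun i _ => ?_
  have : pd i (fun y : E => y 0) = fun _ => if (0 : Fin 3) = i then (1 : ℝ) else 0 :=
    funext fun y => pd_coord i 0 y
  rw [this, pd_const]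

lemma cd_lin (γ : ℝ) : ContDiff ℝ 2 (fun y : E => γ * y 0) := contDiff_const.mul (contDiff_coord 0)

lemma lap_w {u : E → ℝ} (hu : ContDiff ℝ 2 u) (γ : ℝ) (x : E) :
    lap (fun y => γ * y 0 - u y) x = - lap u x := by
  rw [lap_sub (cd_lin γ).contDiffAt hu.contDiffAt, lap_const_mul γ (contDiff_coord 0).contDiffAt,
    lap_coord]
  ring

/-- Bound of the integral over a half-ball by a function of linear growth. -/
lemma int_bound {w : E → ℝ} {D : ℝ} (hD : 0 ≤ D) (hw : ∀ x, |w x| ≤ D * (1 + ‖x‖))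
    (τ : ℝ) : ∀ R : ℝ, 1 ≤ R → ∫ x in Hs τ ∩ ball (0 : E) R, w x ≤ 2 * D * v1 * R ^ 4 := by
  intro R hR
  have hR0 : 0 < R := by linarith
  have hfin : volume (Hs τ ∩ ball (0 : E) R) < ⊤ :=
    (measure_mono inter_subset_right).trans_lt measure_ball_lt_top
  have h1 : ‖∫ x in Hs τ ∩ ball (0 : E) R, w x‖ ≤ (2 * D * R) * volume.real (Hs τ ∩ ball (0 : E) R) := by
    refine norm_setIntegral_le_of_norm_le_const hfin fun x hx => ?_
    have h2 : ‖x‖ < R := by simpa using hx.2
    rw [Real.norm_eq_abs]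
    refine (hw x).trans ?_
    nlinarith
  have h3 : volume.real (Hs τ ∩ ball (0 : E) R) ≤ v1 * R ^ 3 := by
    rw [← vol_ball (0 : E) hR0.le]
    exact measureReal_mono inter_subset_right measure_ball_lt_top.ne
  have h4 : (2 * D * R) * volume.real (Hs τ ∩ ball (0 : E) R) ≤ (2 * D * R) * (v1 * R ^ 3) :=
    mul_le_mul_of_nonneg_left h3 (by positivity)
  calc ∫ x in Hs τ ∩ ball (0 : E) R, w x ≤ ‖∫ x in Hs τ ∩ ball (0 : E) R, w x‖ := Real.le_norm_self _
    _ ≤ (2 * D * R) * (v1 * R ^ 3) := h1.trans h4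
    _ = 2 * D * v1 * R ^ 4 := by ring

/-- the positive first moment of the weight -/
lemma c0_pos : 0 < ∫ y : E, kk y * max (y 0) 0 := by
  have hc : Continuous fun y : E => kk y * max (y 0) 0 :=
    continuous_kk.mul ((contDiff_coord (n := 0) 0).continuous.max continuous_const)
  have hcs : HasCompactSupport fun y : E => kk y * max (y 0) 0 := hasCompactSupport_kk.mul_right
  refine hc.integral_pos_of_hasCompactSupport_nonneg_nonzero hcs
    (fun y => mul_nonneg (kk_nonneg y) (le_max_right _ _)) (x := (1 / 2 : ℝ) • bv 0) ?_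
  have h1 : ((1 / 2 : ℝ) • bv 0 : E) 0 = 1 / 2 := by simp
  have h2 : ‖((1 / 2 : ℝ) • bv 0 : E)‖ = 1 / 2 := by
    rw [norm_smul, norm_bv]; norm_num
  rw [kk, h1, h2]
  norm_num

lemma moment_neg : ∫ y : E, kk y * min (y 0) 0 = - ∫ y : E, kk y * max (y 0) 0 := by
  have h1 := integral_neg_eq_self (fun y : E => kk y * max (y 0) 0) volume
  rw [← h1, ← integral_neg]
  refine integral_congr_ae (Eventually.of_forall fun y => ?_)
  have hk : kk (-y) = kk y := by simp [kk]
  have h2 : (-y : E) 0 = - y 0 := by simp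
  simp only [hk, h2]
  rw [show (0 : ℝ) = - 0 by norm_num, max_neg_neg]
  simp

theorem proof : PL_stmt → MV_stmt → BDA_stmt → EXBD_stmt := by
  intro hPL hMV hBDA f a A K u hn hs ⟨C, hC, hbd⟩
  have hlap0 : ∀ x, 0 ≤ lap u x := fun x => by rw [hs.eq]; exact hn.nonneg _
  have hup : ∀ x : E, 0 ≤ x 0 → u x ≤ 4 * C * x 0 :=
    hPL u C hs.smooth hlap0 hs.neg hC.le fun x => (le_abs_self _).trans (hbd x)
  -- α
  set S : Set ℝ := {s | ∀ x : E, 0 < x 0 → u x ≤ s * x 0} with hS
  have hSne : S.Nonempty := ⟨4 * C, fun x hx => hup x hx.le⟩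
  have hb1 : (bv 0 : E) 0 = 1 := by simp
  have hSbdd : BddBelow S := by
    refine ⟨u (bv 0), fun s hs' => ?_⟩
    have := hs' (bv 0) (by rw [hb1]; norm_num)
    rwa [hb1, mul_one] at this
  set α := sInf S with hα
  have hαS : ∀ x : E, 0 < x 0 → u x ≤ α * x 0 := by
    intro x hx
    rw [← div_le_iff₀ hx]
    refine le_csInf hSne fun s hs' => ?_
    rw [div_le_iff₀ hx]
    exact hs' x hx
  -- β
  set T : Set ℝ := {t | ∀ x : E, x 0 < 0 → u x ≤ t * x 0} with hT
  have hT0 : (0 : ℝ) ∈ T := fun x hx => by rw [zero_mul]; exact hs.neg x hx.le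
  have hb2 : (-(bv 0) : E) 0 = -1 := by simp
  have hTbdd : BddAbove T := by
    refine ⟨- u (-(bv 0)), fun t ht => ?_⟩
    have := ht (-(bv 0)) (by rw [hb2]; norm_num)
    rw [hb2] at this
    linarith
  set β := sSup T with hβ
  have hβT : ∀ x : E, x 0 < 0 → u x ≤ β * x 0 := by
    intro x hx
    rw [← le_div_iff_of_neg hx]
    refine csSup_le ⟨0, hT0⟩ fun t ht => ?_
    rw [le_div_iff_of_neg hx]
    exact ht x hx
  have hβ0 : 0 ≤ β := le_csSup hTbdd hT0
  have hright : ∀ x : E, 0 ≤ x 0 → u x ≤ α * x 0 := by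
    intro x hx
    rcases hx.lt_or_eq with h | h
    · exact hαS x h
    · rw [← h, mul_zero]; exact hs.neg x h.symm.le
  have hleft : ∀ x : E, x 0 ≤ 0 → u x ≤ β * x 0 := by
    intro x hx
    rcases hx.lt_or_eq with h | h
    · exact hβT x h
    · rw [h, mul_zero]; exact hs.neg x h.le
  have hucont : Continuous u := hs.smooth.continuous
  -- β ≤ α
  have hle : β ≤ α := by
    by_contra hcon
    push Not at hcon
    have hc0 := c0_pos
    set c0 := ∫ y : E, kk y * max (y 0) 0 with hc0def
    have key : ∀ r : ℝ, 0 < r → k0 * u 0 ≤ r * ((α - β) * c0) := by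
      intro r hr
      have h1 := hMV u 0 r 0 hs.smooth hr fun y _ => hlap0 y
      rw [zero_mul, zero_mul, zero_div, add_zero] at h1
      refine h1.trans ?_
      have hcu : Continuous fun y : E => u (0 + r • y) := by fun_prop
      have hcoord : Continuous fun y : E => y 0 := (contDiff_coord (n := 0) 0).continuous
      have hcm : Continuous fun y : E => max (y 0) 0 := hcoord.max continuous_const
      have hcm' : Continuous fun y : E => min (y 0) 0 := hcoord.min continuous_const
      have h2 : ∫ y, kk y * u (0 + r • y) ≤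
          ∫ y : E, (α * r * (kk y * max (y 0) 0) + β * r * (kk y * min (y 0) 0)) := by
        refine integral_mono (integrable_kk_mul hcu)
          (((integrable_kk_mul hcm).const_mul _).add ((integrable_kk_mul hcm').const_mul _))
          fun y => ?_
        have h3 : (0 + r • y : E) 0 = r * y 0 := by simp
        beta_reduce
        rcases le_total 0 (y 0) with hy | hy
        · rw [max_eq_left hy, min_eq_right hy]
          have h4 := hright (0 + r • y) (by rw [h3]; positivity)
          rw [h3] at h4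
          calc kk y * u (0 + r • y) ≤ kk y * (α * (r * y 0)) :=
                mul_le_mul_of_nonneg_left h4 (kk_nonneg y)
            _ = _ := by ring
        · rw [max_eq_right hy, min_eq_left hy]
          have h4 := hleft (0 + r • y) (by rw [h3]; exact mul_nonpos_of_nonneg_of_nonpos hr.le hy)
          rw [h3] at h4
          calc kk y * u (0 + r • y) ≤ kk y * (β * (r * y 0)) :=
                mul_le_mul_of_nonneg_left h4 (kk_nonneg y)
            _ = _ := by ring
      refine h2.trans (le_of_eq ?_)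
      rw [integral_add ((integrable_kk_mul hcm).const_mul _) ((integrable_kk_mul hcm').const_mul _),
        integral_const_mul, integral_const_mul, moment_neg]
      ring
    have hneg : (α - β) * c0 < 0 := mul_neg_of_neg_of_pos (by linarith) hc0
    obtain ⟨Q, hQ⟩ : ∃ Q : ℝ, Q = - ((α - β) * c0) := ⟨_, rfl⟩
    have hQ0 : 0 < Q := by rw [hQ]; linarith
    have hQe : (α - β) * c0 = - Q := by rw [hQ]; ring
    have h5 := key (|k0 * u 0| / Q + 1)
      (add_pos_of_nonneg_of_pos (div_nonneg (abs_nonneg _) hQ0.le) one_pos)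
    have h6 : (|k0 * u 0| / Q + 1) * (-Q) = - |k0 * u 0| - Q := by
      have h7 : |k0 * u 0| / Q * Q = |k0 * u 0| := div_mul_cancel₀ _ hQ0.ne'
      linarith
    rw [hQe, h6] at h5
    linarith [neg_abs_le (k0 * u 0)]
  -- limits
  have hgrow : ∀ γ : ℝ, ∀ x : E, |γ * x 0 - u x| ≤ (|γ| + C) * (1 + ‖x‖) := by
    intro γ x
    have h1 : |γ * x 0 - u x| ≤ |γ * x 0| + |u x| := abs_sub _ _
    have h2 : |γ * x 0| ≤ |γ| * ‖x‖ := by
      rw [abs_mul]; exact mul_le_mul_of_nonneg_left (abs_coord_le x 0) (abs_nonneg _)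
    have h3 := hbd x
    have h4 : |γ| * ‖x‖ ≤ |γ| * (1 + ‖x‖) :=
      mul_le_mul_of_nonneg_left (by linarith) (abs_nonneg _)
    calc |γ * x 0 - u x| ≤ |γ| * (1 + ‖x‖) + C * (1 + ‖x‖) := by linarith
      _ = _ := by ring
  have hlimr : ∀ ε > 0, ∃ R₀ : ℝ, ∀ R ≥ R₀, ∫ x in Hs 1 ∩ ball 0 R, (α * x 0 - u x) ≤ ε * R ^ 4 := by
    refine hBDA 1 (fun x => α * x 0 - u x) (2 * (|α| + C) * v1) ⟨Or.inl rfl, (cd_lin α).sub hs.smooth,
      fun x hx => ?_, fun x _ => ?_⟩ (int_bound (by positivity) (hgrow α) 1) fun ε hε => ?_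
    · have := hright x (by linarith)
      linarith
    · rw [lap_w hs.smooth]; linarith [hlap0 x]
    · by_contra hcon
      push Not at hcon
      have h1 : α - ε ∈ S := by
        intro x hx
        have h2 := hcon x (by show 0 < 1 * x 0; linarith)
        linarith
      have h3 := csInf_le hSbdd h1
      rw [← hα] at h3
      linarith
  have hliml : ∀ ε > 0, ∃ R₀ : ℝ, ∀ R ≥ R₀,
      ∫ x in Hs (-1) ∩ ball 0 R, (β * x 0 - u x) ≤ ε * R ^ 4 := by
    refine hBDA (-1) (fun x => β * x 0 - u x) (2 * (|β| + C) * v1)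
      ⟨Or.inr rfl, (cd_lin β).sub hs.smooth, fun x hx => ?_, fun x _ => ?_⟩
      (int_bound (by positivity) (hgrow β) (-1)) fun ε hε => ?_
    · have := hleft x (by linarith)
      linarith
    · rw [lap_w hs.smooth]; linarith [hlap0 x]
    · by_contra hcon
      push Not at hcon
      have h1 : β + ε ∈ T := by
        intro x hx
        have h2 := hcon x (by show 0 < -1 * x 0; linarith)
        linarith
      have h3 := le_csSup hTbdd h1
      rw [← hβ] at h3
      linarith
  refine ⟨α, β, ⟨hβ0, hle, hright, hleft, ⟨C, hC, hbd⟩, hlimr, hliml⟩, fun b hb => ?_⟩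
  exact le_csSup hTbdd fun x hx => hb x hx.le

end Pool.Agent.Helper77.HS3.EXBD
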