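import Pool.Agent.Helper35.HS3.GoalsD

/-!
# MP_66e6f4_an: packet HS3-FQODE (analysis of the frequency system)
-/

namespace Pool.Agent.Helper77.HS3.FQODE

open MeasureTheory Set Filter Topology Metric
open Pool.Agent.Helper35.HS3

/-- derivative of `H r / r^K`, times sign information -/
lemma quot_deriv {H : ℝ → ℝ} {H' r : ℝ} (K : ℕ) (hr : 0 < r) (h : HasDerivAt H H' r) :
    HasDerivAt (fun r => H r / r ^ K) ((r * H' - K * H r) / r ^ (K + 1)) r := by
  have h1 := h.div (hasDerivAt_pow K r) (pow_ne_zero K hr.ne')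
  refine h1.congr_deriv ?_
  rcases K with _ | K
  · simp
    field_simp
  · rw [div_eq_div_iff (by positivity) (by positivity)]
    simp only [Nat.add_sub_cancel]
    ring

lemma mono_quot {H H' : ℝ → ℝ} {a b : ℝ} (K : ℕ) (ha : 0 < a) (hab : a ≤ b)
    (h : ∀ r, a ≤ r → r ≤ b → HasDerivAt H (H' r) r)
    (hk : ∀ r, a ≤ r → r ≤ b → K * H r ≤ r * H' r) : H a / a ^ K ≤ H b / b ^ K := by
  have hd : ∀ r, a ≤ r → r ≤ b →
      HasDerivAt (fun r => H r / r ^ K) ((r * H' r - K * H r) / r ^ (K + 1)) r :=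
    fun r h1 h2 => quot_deriv K (lt_of_lt_of_le ha h1) (h r h1 h2)
  have hm : MonotoneOn (fun r => H r / r ^ K) (Icc a b) := by
    refine monotoneOn_of_deriv_nonneg (convex_Icc a b)
      (fun r hr => (hd r hr.1 hr.2).continuousAt.continuousWithinAt) ?_ ?_
    · intro r hr
      rw [interior_Icc] at hr
      exact (hd r hr.1.le hr.2.le).differentiableAt.differentiableWithinAt
    · intro r hr
      rw [interior_Icc] at hr
      rw [(hd r hr.1.le hr.2.le).deriv]
      have hr0 : 0 < r := ha.trans hr.1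
      exact div_nonneg (by linarith [hk r hr.1.le hr.2.le]) (by positivity)
  exact hm (left_mem_Icc.2 hab) (right_mem_Icc.2 hab) hab

lemma anti_quot {H H' : ℝ → ℝ} {a b : ℝ} (K : ℕ) (ha : 0 < a) (hab : a ≤ b)
    (h : ∀ r, a ≤ r → r ≤ b → HasDerivAt H (H' r) r)
    (hk : ∀ r, a ≤ r → r ≤ b → r * H' r ≤ K * H r) : H b / b ^ K ≤ H a / a ^ K := by
  have := mono_quot (H := fun r => - H r) (H' := fun r => - H' r) K ha hab
    (fun r h1 h2 => (h r h1 h2).neg) (fun r h1 h2 => by linarith [hk r h1 h2])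
  rw [neg_div, neg_div] at this
  linarith

/-- first exit argument -/
lemma exit {φ : ℝ → ℝ} {a c : ℝ} (hφ : ContinuousOn φ (Ici a)) (ha : c < φ a)
    (h : ∀ R, a ≤ R → (∀ r, a ≤ r → r ≤ R → c ≤ φ r) → c < φ R) : ∀ r, a ≤ r → c < φ r := by
  by_contra hcon
  push Not at hcon
  obtain ⟨r₂, hr₂, hr₂c⟩ := hcon
  set B : Set ℝ := {r | a ≤ r ∧ φ r ≤ c} with hB
  have hBc : IsClosed B := by
    have : B = Ici a ∩ φ ⁻¹' (Iic c) := by ext r; simp [hB]
    rw [this]
    exact hφ.preimage_isClosed_of_isClosed isClosed_Ici isClosed_Iic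
  have hBne : B.Nonempty := ⟨r₂, hr₂, hr₂c⟩
  have hBb : BddBelow B := ⟨a, fun r hr => hr.1⟩
  have hR : sInf B ∈ B := hBc.csInf_mem hBne hBb
  set R := sInf B with hRdef
  have hlt : ∀ r, a ≤ r → r < R → c < φ r := by
    intro r h1 h2
    by_contra h3
    push Not at h3
    exact absurd (csInf_le hBb ⟨h1, h3⟩) (not_le.2 h2)
  have haR : a < R := by
    rcases hR.1.lt_or_eq with h1 | h1
    · exact h1
    · have h2 := hR.2
      rw [← h1] at h2
      linarith
  have hcR : c ≤ φ R := by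
    have h1 : Tendsto φ (𝓝[Ico a R] R) (𝓝 (φ R)) :=
      ((hφ R haR.le).mono_left (nhdsWithin_mono _ fun r hr => hr.1))
    have h2 : (𝓝[Ico a R] R).NeBot := by
      rw [← mem_closure_iff_nhdsWithin_neBot, closure_Ico haR.ne]
      exact right_mem_Icc.2 haR.le
    refine ge_of_tendsto h1 ?_
    filter_upwards [self_mem_nhdsWithin] with r hr
    exact (hlt r hr.1 hr.2).le
  have h1 := h R haR.le fun r hr1 hr2 => by
    rcases hr2.lt_or_eq with h2 | h2
    · exact (hlt r hr1 h2).le
    · rw [h2]; exact hcR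
  linarith [hR.2]

theorem proof : FQODE_stmt := by
  intro H I J E₁ E₂ C₁ D N hC₁ hN hH hI hCS hE hgr
  obtain ⟨r₀, hr₀⟩ := hgr
  have hHpos : ∀ r, 0 < r → 0 < H r := fun r hr =>
    lt_of_lt_of_le (by positivity) (hE r hr).2.2.1
  have hE1 : ∀ r, 0 < r → |E₁ r| ≤ H r / 100 := fun r hr => by
    have h1 := (hE r hr).1
    have h2 := (hE r hr).2.2.1
    linarith
  have hNr : (9 : ℝ) ≤ N := by exact_mod_cast hN
  have hrH : ∀ r, 0 < r → r * ((7 * H r + (I r + E₁ r) / 3) / r) = 7 * H r + (I r + E₁ r) / 3 :=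
    fun r hr => by field_simp
  have part1 : ∀ r, 0 < r → I r ≤ 6 * N * H r := by
    by_contra hcon
    push Not at hcon
    obtain ⟨r₁, hr₁, hcon⟩ := hcon
    set n : ℝ → ℝ := fun r => I r / H r with hn
    obtain ⟨M, hM⟩ : ∃ M, M = n r₁ := ⟨_, rfl⟩
    have hM6 : 6 * (N : ℝ) < M := by
      rw [hM, hn]
      beta_reduce
      rw [lt_div_iff₀ (hHpos r₁ hr₁)]
      exact hcon
    have hM54 : 54 < M := by linarith
    have hIn : ∀ r, 0 < r → I r = n r * H r := fun r hr => by
      rw [hn]; beta_reduce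
      rw [div_mul_cancel₀ _ (hHpos r hr).ne']
    have hnpos : ∀ r, 0 < r → 0 < n r := fun r hr => div_pos (hE r hr).2.2.2 (hHpos r hr)
    have hnd : ∀ r, 0 < r → HasDerivAt n
        (((7 * I r + 12 * J r + E₂ r) / r * H r - I r * ((7 * H r + (I r + E₁ r) / 3) / r)) /
          H r ^ 2) r := fun r hr => (hI r hr).div (hH r hr) (hHpos r hr).ne'
    have hncont : ContinuousOn n (Ici r₁) := fun r hr =>
      (hnd r (lt_of_lt_of_le hr₁ hr)).continuousAt.continuousWithinAt
    have hclaim : ∀ r, r₁ ≤ r → M / 2 < n r := by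
      refine exit hncont (by rw [← hM]; linarith) fun R hR hbd => ?_
      have h27 : ∀ r, r₁ ≤ r → r ≤ R → 27 * H r ≤ I r := by
        intro r h1 h2
        have hr : 0 < r := lt_of_lt_of_le hr₁ h1
        rw [hIn r hr]
        exact mul_le_mul_of_nonneg_right (by linarith [hbd r h1 h2]) (hHpos r hr).le
      have h15 : ∀ r, r₁ ≤ r → r ≤ R → (15 : ℕ) * H r ≤ r * ((7 * H r + (I r + E₁ r) / 3) / r) := by
        intro r h1 h2
        have hr : 0 < r := lt_of_lt_of_le hr₁ h1
        rw [hrH r hr]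
        have h3 := h27 r h1 h2
        have h4 := (abs_le.1 (hE1 r hr)).1
        have h5 := hHpos r hr
        push_cast
        linarith
      -- growth of H
      have hgrow : ∀ r, r₁ ≤ r → r ≤ R → C₁ * r ^ 9 ≤ (1 / 100 * (r₁ / r) ^ 6) * H r := by
        intro r h1 h2
        have hr : 0 < r := lt_of_lt_of_le hr₁ h1
        have h3 := mono_quot (H := H) (H' := fun r => (7 * H r + (I r + E₁ r) / 3) / r) 15 hr₁ h1
          (fun s hs1 hs2 => hH s (lt_of_lt_of_le hr₁ hs1))
          (fun s hs1 hs2 => h15 s hs1 (hs2.trans h2))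
        have h4 : 100 * C₁ * r₁ ^ 9 / r₁ ^ 15 ≤ H r₁ / r₁ ^ 15 :=
          div_le_div_of_nonneg_right (hE r₁ hr₁).2.2.1 (by positivity)
        have h5 := h4.trans h3
        rw [le_div_iff₀ (by positivity)] at h5
        have h6 : 100 * C₁ * r₁ ^ 9 / r₁ ^ 15 * r ^ 15 = 100 * C₁ * r ^ 15 / r₁ ^ 6 := by
          field_simp
        rw [h6] at h5
        have h7 : (1 / 100 * (r₁ / r) ^ 6) * (100 * C₁ * r ^ 15 / r₁ ^ 6) = C₁ * r ^ 9 := by
          field_simp
        rw [← h7]
        exact mul_le_mul_of_nonneg_left h5 (by positivity)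
      have hδ : ∀ r, r₁ ≤ r → 1 / 100 * (r₁ / r) ^ 6 ≤ 1 / 100 := by
        intro r h1
        have hr : 0 < r := lt_of_lt_of_le hr₁ h1
        have h2 : r₁ / r ≤ 1 := by rw [div_le_one hr]; exact h1
        have h3 : (r₁ / r) ^ 6 ≤ 1 := pow_le_one₀ (by positivity) h2
        linarith
      set n' : ℝ → ℝ := fun r =>
        ((7 * I r + 12 * J r + E₂ r) / r * H r - I r * ((7 * H r + (I r + E₁ r) / 3) / r)) /
          H r ^ 2 with hn'
      have hn'low : ∀ r, r₁ ≤ r → r ≤ R → 0 ≤ n' r + n r * (1 / 100 * (r₁ / r) ^ 6 / r) := by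
        intro r h1 h2
        have hr : 0 < r := lt_of_lt_of_le hr₁ h1
        obtain ⟨δ, hδe⟩ : ∃ δ, δ = 1 / 100 * (r₁ / r) ^ 6 := ⟨_, rfl⟩
        have hδ0 : 0 ≤ δ := by rw [hδe]; positivity
        have hδ1 : δ ≤ 1 / 100 := by rw [hδe]; exact hδ r h1
        have hG := hgrow r h1 h2
        rw [← hδe] at hG
        have hH0 := hHpos r hr
        have e1 : |E₁ r| ≤ δ * H r := (hE r hr).1.trans hG
        have e2 : |E₂ r| ≤ δ * H r := (hE r hr).2.1.trans hG
        have e1' := abs_le.1 e1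
        have e2' := abs_le.1 e2
        have hI27 := h27 r h1 h2
        have hcs := hCS r hr
        have hI0 : 0 < I r := (hE r hr).2.2.2
        have key : n' r + n r * (1 / 100 * (r₁ / r) ^ 6 / r) =
            (12 * J r * H r + E₂ r * H r - I r * (I r + E₁ r) / 3 + δ * I r * H r) /
              (r * H r ^ 2) := by
          rw [← hδe, hn', hn]
          beta_reduce
          field_simp
          ring
        rw [key]
        refine div_nonneg ?_ (by positivity)
        -- numerator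
        have a1 : E₂ r * H r ≥ -(δ * H r) * H r := mul_le_mul_of_nonneg_right e2'.1 hH0.le
        have a2 : 0 ≤ I r + E₁ r := by nlinarith
        have a3 : E₁ r * (I r + E₁ r) ≥ -(δ * H r) * (I r + E₁ r) :=
          mul_le_mul_of_nonneg_right e1'.1 a2
        have a4 : I r + E₁ r ≤ 2 * I r := by nlinarith
        have a5 : (δ * H r) * (I r + E₁ r) ≤ (δ * H r) * (2 * I r) :=
          mul_le_mul_of_nonneg_left a4 (by positivity)
        have a6 : (δ * H r) * (27 * H r) ≤ (δ * H r) * I r :=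
          mul_le_mul_of_nonneg_left hI27 (by positivity)
        have a7 : 0 ≤ (δ * H r) * I r := by positivity
        nlinarith
      have hexp : ∀ r, r₁ ≤ r → HasDerivAt (fun r => n r * Real.exp (-(1 / 600) * (r₁ / r) ^ 6))
          ((n' r + n r * (1 / 100 * (r₁ / r) ^ 6 / r)) * Real.exp (-(1 / 600) * (r₁ / r) ^ 6)) r := by
        intro r h1
        have hr : 0 < r := lt_of_lt_of_le hr₁ h1
        have b1 : HasDerivAt (fun r : ℝ => r₁ / r) (-(r₁ / r ^ 2)) r := by
          have := (hasDerivAt_const r r₁).div (hasDerivAt_id r) hr.ne'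
          refine this.congr_deriv ?_
          simp
          ring
        have b2 : HasDerivAt (fun r => Real.exp (-(1 / 600) * (r₁ / r) ^ 6))
            (Real.exp (-(1 / 600) * (r₁ / r) ^ 6) *
              (-(1 / 600) * ((6 : ℕ) * (r₁ / r) ^ (6 - 1) * -(r₁ / r ^ 2)))) r :=
          ((b1.pow 6).const_mul (-(1 / 600))).exp
        have b3 : HasDerivAt (fun r => n r * Real.exp (-(1 / 600) * (r₁ / r) ^ 6))
            (n' r * Real.exp (-(1 / 600) * (r₁ / r) ^ 6) + n r *
            (Real.exp (-(1 / 600) * (r₁ / r) ^ 6) *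
              (-(1 / 600) * ((6 : ℕ) * (r₁ / r) ^ (6 - 1) * -(r₁ / r ^ 2))))) r :=
          (hnd r hr).mul b2
        refine b3.congr_deriv ?_
        have b4 : -(1 / 600) * ((6 : ℕ) * (r₁ / r) ^ (6 - 1) * -(r₁ / r ^ 2)) =
            1 / 100 * (r₁ / r) ^ 6 / r := by
          rw [show (6 - 1 : ℕ) = 5 from rfl]
          push_cast
          field_simp
          norm_num
        rw [b4]
        ring
      have hmono : MonotoneOn (fun r => n r * Real.exp (-(1 / 600) * (r₁ / r) ^ 6)) (Icc r₁ R) := by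
        refine monotoneOn_of_deriv_nonneg (convex_Icc _ _)
          (fun r hr => (hexp r hr.1).continuousAt.continuousWithinAt) ?_ ?_
        · intro r hr
          rw [interior_Icc] at hr
          exact (hexp r hr.1.le).differentiableAt.differentiableWithinAt
        · intro r hr
          rw [interior_Icc] at hr
          rw [(hexp r hr.1.le).deriv]
          exact mul_nonneg (hn'low r hr.1.le hr.2.le) (Real.exp_pos _).le
      have hfin := hmono (left_mem_Icc.2 hR) (right_mem_Icc.2 hR) hR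
      beta_reduce at hfin
      rw [← hM, div_self hr₁.ne', one_pow, mul_one] at hfin
      have hR0 : 0 < R := lt_of_lt_of_le hr₁ hR
      have c1 : Real.exp (-(1 / 600) * (r₁ / R) ^ 6) ≤ 1 :=
        Real.exp_le_one_iff.2 (by
          have : 0 ≤ (r₁ / R) ^ 6 := by positivity
          linarith)
      have c2 : n R * Real.exp (-(1 / 600) * (r₁ / R) ^ 6) ≤ n R * 1 :=
        mul_le_mul_of_nonneg_left c1 (hnpos R hR0).le
      have c3 : -(1 / 600) + 1 ≤ Real.exp (-(1 / 600)) := Real.add_one_le_exp _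
      have c4 : M * (-(1 / 600) + 1) ≤ M * Real.exp (-(1 / 600)) :=
        mul_le_mul_of_nonneg_left c3 (by linarith)
      linarith
    -- growth at infinity
    have hg : ∀ r, r₁ ≤ r → ((N + 6 : ℕ) : ℝ) * H r ≤ r * ((7 * H r + (I r + E₁ r) / 3) / r) := by
      intro r h1
      have hr : 0 < r := lt_of_lt_of_le hr₁ h1
      rw [hrH r hr]
      have h2 : M / 2 * H r ≤ I r := by
        rw [hIn r hr]
        exact mul_le_mul_of_nonneg_right (hclaim r h1).le (hHpos r hr).le
      have h3 := (abs_le.1 (hE1 r hr)).1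
      have h4 := hHpos r hr
      have h5 : 3 * (N : ℝ) * H r ≤ M / 2 * H r := mul_le_mul_of_nonneg_right (by linarith) h4.le
      push_cast
      linarith
    obtain ⟨r, hrdef⟩ : ∃ r, r = max (max r₀ r₁) (max 1 (D * r₁ ^ (N + 6) / H r₁ + 1)) := ⟨_, rfl⟩
    have hrr0 : r₀ ≤ r := by rw [hrdef]; exact (le_max_left _ _).trans (le_max_left _ _)
    have hrr1 : r₁ ≤ r := by rw [hrdef]; exact (le_max_right _ _).trans (le_max_left _ _)
    have hr1 : 1 ≤ r := by rw [hrdef]; exact (le_max_left _ _).trans (le_max_right _ _)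
    have hrD : D * r₁ ^ (N + 6) / H r₁ + 1 ≤ r := by
      rw [hrdef]; exact (le_max_right _ _).trans (le_max_right _ _)
    have hr : 0 < r := by linarith
    have h1 := mono_quot (H := H) (H' := fun r => (7 * H r + (I r + E₁ r) / 3) / r) (N + 6) hr₁ hrr1
      (fun s hs1 hs2 => hH s (lt_of_lt_of_le hr₁ hs1)) (fun s hs1 hs2 => hg s hs1)
    have h2 := hr₀ r hrr0
    have h3 : H r / r ^ (N + 6) ≤ D / r ^ 6 := by
      rw [div_le_div_iff₀ (by positivity) (by positivity)]
      calc H r * r ^ 6 ≤ D * r ^ N * r ^ 6 := mul_le_mul_of_nonneg_right h2 (by positivity)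
        _ = D * r ^ (N + 6) := by ring
    have h4 := h1.trans h3
    rw [div_le_div_iff₀ (by positivity) (by positivity)] at h4
    have h5 := hHpos r₁ hr₁
    have h6 : r ≤ r ^ 6 := by
      calc r = r ^ 1 := (pow_one r).symm
        _ ≤ r ^ 6 := pow_le_pow_right₀ hr1 (by norm_num)
    have h7 : H r₁ * (D * r₁ ^ (N + 6) / H r₁ + 1) ≤ H r₁ * r ^ 6 :=
      mul_le_mul_of_nonneg_left (hrD.trans h6) h5.le
    have h8 : H r₁ * (D * r₁ ^ (N + 6) / H r₁ + 1) = D * r₁ ^ (N + 6) + H r₁ := by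
      field_simp
    linarith
  refine ⟨part1, fun r₁ r₂ hr₁ hr => ?_⟩
  have h1 := anti_quot (H := H) (H' := fun r => (7 * H r + (I r + E₁ r) / 3) / r) (8 + 2 * N) hr₁ hr
    (fun s hs1 hs2 => hH s (lt_of_lt_of_le hr₁ hs1)) (fun s hs1 hs2 => by
      have hs : 0 < s := lt_of_lt_of_le hr₁ hs1
      beta_reduce
      rw [hrH s hs]
      have h2 := part1 s hs
      have h3 := (abs_le.1 (hE1 s hs)).2
      have h4 := hHpos s hs
      push_cast
      linarith)
  have hr₂ : 0 < r₂ := lt_of_lt_of_le hr₁ hr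
  rw [div_le_div_iff₀ (by positivity) (by positivity)] at h1
  rw [div_pow, div_mul_eq_mul_div, le_div_iff₀ (by positivity)]
  linarith

end Pool.Agent.Helper77.HS3.FQODE
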